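import Mathlib
import Pool.Agent.U171.ToParity.Main

/-!
The parity of the coefficients `t_o(n)` of `T_o(q) = ∑_{m ≥ 0} q^{2m} (-q;q)_{2m} / (q;q²)_{m+1}`:
`t_o(n)` is congruent modulo `2` to the number of pairs `(N, k)` with `0 ≤ k ≤ 2N+1` and
`(N+1)² + k(k+1)/2 = n+1`.  Such a pair gives `8n+9 = (2k+1)² + 2(2(N+1))²`, so `t_o(n)` is even
whenever `8n+9` is not of the form `x² + 2y²`.
-/

namespace Pool.Agent.Results.MP_0c59fa_nt.ParityOfTo

open PowerSeries Finset

/-- the `m`-th summand `q^{2m} (-q;q)_{2m} / (q;q²)_{m+1}` of `T_o`, a formal power series over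
the integers; `invOfUnit f 1` is the inverse of the power series `f`, whose constant
coefficient is `1` -/
noncomputable def summand (m : ℕ) : PowerSeries ℤ :=
  X ^ (2 * m) * (∏ k ∈ range (2 * m), (1 + X ^ (k + 1))) *
    invOfUnit (∏ k ∈ range (m + 1), (1 - X ^ (2 * k + 1))) 1

/-- `t_o(n)`, the coefficient of `q^n` in `T_o = ∑_m summand m` (for given `n` only finitely many
summands contribute, as `summand m` is divisible by `q^{2m}`) -/
noncomputable def tO (n : ℕ) : ℤ := ∑ᶠ m : ℕ, coeff n (summand m)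

/-- `N` is represented by `x² + 2y²` -/
def Represented (N : ℕ) : Prop := ∃ x y : ℤ, (N : ℤ) = x ^ 2 + 2 * y ^ 2

theorem tO_mod (n : ℕ) : ((tO n : ℤ) : ZMod 2) =
    ∑ N ∈ range (n + 1), ∑ k ∈ range (2 * N + 2),
      if (N + 1) ^ 2 + k * (k + 1) / 2 = n + 1 then (1 : ZMod 2) else 0 :=
  Pool.Agent.U171.ToParity.tO_mod n

theorem represented_of_eq {n N k : ℕ} (h : (N + 1) ^ 2 + k * (k + 1) / 2 = n + 1) :
    Represented (8 * n + 9) := by
  refine ⟨2 * k + 1, 2 * (N + 1), ?_⟩
  obtain ⟨c, hc⟩ : 2 ∣ k * (k + 1) := (Nat.even_mul_succ_self k).two_dvd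
  rw [hc, Nat.mul_div_cancel_left _ (by norm_num : 0 < 2)] at h
  have h1 : ((N : ℤ) + 1) ^ 2 + c = n + 1 := by exact_mod_cast h
  have h2 : (k : ℤ) * (k + 1) = 2 * c := by exact_mod_cast hc
  push_cast
  linear_combination (-8) * h1 - 4 * h2

theorem even_of_not_represented (n : ℕ) (h : ¬ Represented (8 * n + 9)) : Even (tO n) := by
  rw [← ZMod.intCast_eq_zero_iff_even, tO_mod]
  apply sum_eq_zero
  intro N _
  apply sum_eq_zero
  intro k _
  rw [if_neg]
  exact fun hc => h (represented_of_eq hc)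

theorem tO_count (n : ℕ) : ((tO n : ℤ) : ZMod 2) =
    (Nat.card {v : ℕ × ℕ // v.2 ≤ 2 * v.1 + 1 ∧ (v.1 + 1) ^ 2 + v.2 * (v.2 + 1) / 2 = n + 1} :
      ZMod 2) := by
  have h : Nat.card {v : ℕ × ℕ // v.2 ≤ 2 * v.1 + 1 ∧
      (v.1 + 1) ^ 2 + v.2 * (v.2 + 1) / 2 = n + 1} =
      ∑ N ∈ range (n + 1), ∑ k ∈ range (2 * N + 2),
        if (N + 1) ^ 2 + k * (k + 1) / 2 = n + 1 then 1 else 0 := by
    rw [sum_sigma', ← card_filter, ← Fintype.card_coe, ← Nat.card_eq_fintype_card]
    apply Nat.card_congr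
    refine
      { toFun := fun v => ⟨⟨v.1.1, v.1.2⟩, ?_⟩
        invFun := fun v => ⟨(v.1.1, v.1.2), ?_⟩
        left_inv := fun v => rfl
        right_inv := fun v => rfl }
    · have h1 := v.2.1
      have h2 := v.2.2
      have h3 : v.1.1 + 1 ≤ (v.1.1 + 1) ^ 2 := Nat.le_self_pow (by norm_num) _
      simp only [mem_filter, mem_sigma, mem_range]
      exact ⟨⟨by omega, by omega⟩, h2⟩
    · have h := v.2
      simp only [mem_filter, mem_sigma, mem_range] at h
      exact ⟨by omega, h.2⟩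
  rw [tO_mod, h]
  push_cast
  rfl

/-- `x² + 2y²` is divisible to an even power by the primes `≡ 5, 7 (mod 8)` -/
theorem even_padic (p : ℕ) (hp : p.Prime) (h8 : p % 8 = 5 ∨ p % 8 = 7) (N : ℕ) :
    0 < N → Represented N → Even (padicValNat p N) := by
  have : Fact p.Prime := ⟨hp⟩
  have hp2 : p ≠ 2 := by rintro rfl; omega
  have hns : ¬ IsSquare (-2 : ZMod p) := by
    rw [ZMod.exists_sq_eq_neg_two_iff hp2]
    omega
  induction N using Nat.strong_induction_on with
  | _ N ih =>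
    rintro hN ⟨x, y, hxy⟩
    by_cases hd : p ∣ N
    · have h1 : ((x : ZMod p)) ^ 2 + 2 * (y : ZMod p) ^ 2 = 0 := by
        have : (((N : ℤ) : ℤ) : ZMod p) = 0 := by
          rw [Int.cast_natCast, ZMod.natCast_eq_zero_iff]
          exact hd
        rw [hxy] at this
        push_cast at this
        exact this
      have hy : (y : ZMod p) = 0 := by
        by_contra hy
        apply hns
        refine ⟨x / y, ?_⟩
        field_simp
        linear_combination -h1
      have hx : (x : ZMod p) = 0 := by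
        rw [hy] at h1
        simpa using h1
      rw [ZMod.intCast_zmod_eq_zero_iff_dvd] at hx hy
      obtain ⟨a, rfl⟩ := hx
      obtain ⟨b, rfl⟩ := hy
      have h2 : (N : ℤ) = p ^ 2 * (a ^ 2 + 2 * b ^ 2) := by rw [hxy]; ring
      have hdvd : p ^ 2 ∣ N := by
        have : ((p ^ 2 : ℕ) : ℤ) ∣ (N : ℤ) := ⟨a ^ 2 + 2 * b ^ 2, by rw [h2]; push_cast; ring⟩
        exact_mod_cast this
      obtain ⟨N', rfl⟩ := hdvd
      have hN' : 0 < N' := by
        rcases Nat.eq_zero_or_pos N' with h | h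
        · subst h; simp at hN
        · exact h
      have hpp : 0 < p ^ 2 := pow_pos hp.pos 2
      have h3 : (N' : ℤ) = a ^ 2 + 2 * b ^ 2 := by
        have : (p : ℤ) ^ 2 ≠ 0 := by
          exact_mod_cast hpp.ne'
        apply mul_left_cancel₀ this
        rw [← h2]
        push_cast
        ring
      have hlt : N' < p ^ 2 * N' := by
        have : 1 < p ^ 2 := Nat.one_lt_pow (by norm_num) hp.one_lt
        nlinarith
      have := ih N' hlt hN' ⟨a, b, h3⟩
      rw [padicValNat.mul hpp.ne' hN'.ne', padicValNat.prime_pow]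
      exact even_two.add this
    · rw [padicValNat.eq_zero_of_not_dvd hd]
      exact Even.zero

/-- **The parity of `t_o(n)`.**
(1) if `8n+9` is not of the form `x² + 2y²`, then `t_o(n)` is even;
(2) if some prime `p ≡ 5, 7 (mod 8)` divides `8n+9` to an odd power, then `t_o(n)` is even;
(3) for every `n`, `t_o(n)` is congruent modulo `2` to the number of pairs `(N, k)` of natural
numbers with `k ≤ 2N+1` and `(N+1)² + k(k+1)/2 = n+1`. -/
theorem result :
    (∀ n : ℕ, ¬ Represented (8 * n + 9) → Even (tO n)) ∧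
    (∀ n : ℕ, (∃ p : ℕ, p.Prime ∧ (p % 8 = 5 ∨ p % 8 = 7) ∧ Odd (padicValNat p (8 * n + 9))) →
      Even (tO n)) ∧
    (∀ n : ℕ, ((tO n : ℤ) : ZMod 2) =
      (Nat.card {v : ℕ × ℕ // v.2 ≤ 2 * v.1 + 1 ∧ (v.1 + 1) ^ 2 + v.2 * (v.2 + 1) / 2 = n + 1} :
        ZMod 2)) := by
  refine ⟨even_of_not_represented, ?_, tO_count⟩
  rintro n ⟨p, hp, h8, hodd⟩
  apply even_of_not_represented
  intro h
  exact (Nat.not_even_iff_odd.mpr hodd) (even_padic p hp h8 _ (by omega) h)

end Pool.Agent.Results.MP_0c59fa_nt.ParityOfTo
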